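import Mathlib

/-!
# A monotone vector variational inequality whose Pareto solution set is bounded and disconnected

`K = {(s, h₁, h₂) : 0 ≤ s ≤ 1, h₂² ≤ h₁ ≤ 1}`,
`F₁ (s, h₁, h₂) = (8 h₂² / (2 - s)² - h₁, s, 16 h₂ / (2 - s))`, `F₂ = (0, 0, 1)`.
-/

namespace Pool.Agent.Results.MP_177738_an.BoundedDisconnected

open Set
open scoped RealInnerProductSpace

/-- The Pareto solution set `Sol (F, K)`: the points `x` of `K` such that for no `y` in `K` the
vector `F(x)(x - y) = (⟨F₁(x), x - y⟩, …, ⟨F_m(x), x - y⟩)` lies in `ℝ^m_+ \ {0}`. -/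
def Sol {n m : ℕ} (F : Fin m → EuclideanSpace ℝ (Fin n) → EuclideanSpace ℝ (Fin n))
    (K : Set (EuclideanSpace ℝ (Fin n))) : Set (EuclideanSpace ℝ (Fin n)) :=
  {x | x ∈ K ∧ ∀ y ∈ K, ¬ ((∀ l, 0 ≤ ⟪F l x, x - y⟫) ∧ ∃ l, ⟪F l x, x - y⟫ ≠ 0)}

/-- Monotonicity on `K` of a map `G : K → ℝ^n`. -/
def MonotoneOnSet {n : ℕ} (G : EuclideanSpace ℝ (Fin n) → EuclideanSpace ℝ (Fin n))
    (K : Set (EuclideanSpace ℝ (Fin n))) : Prop :=
  ∀ x ∈ K, ∀ y ∈ K, 0 ≤ ⟪G y - G x, y - x⟫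

/-- The compact convex set of the example. -/
def K₀ : Set (EuclideanSpace ℝ (Fin 3)) :=
  {x | 0 ≤ x 0 ∧ x 0 ≤ 1 ∧ (x 2) ^ 2 ≤ x 1 ∧ x 1 ≤ 1}

/-- The two maps of the example. -/
noncomputable def F₀ : Fin 2 → EuclideanSpace ℝ (Fin 3) → EuclideanSpace ℝ (Fin 3) :=
  ![fun x => !₂[8 * (x 2) ^ 2 / (2 - x 0) ^ 2 - x 1, x 0, 16 * x 2 / (2 - x 0)],
    fun _ => !₂[0, 0, 1]]

lemma inner3 (a b : EuclideanSpace ℝ (Fin 3)) :
    ⟪a, b⟫ = a 0 * b 0 + a 1 * b 1 + a 2 * b 2 := by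
  rw [PiLp.inner_apply, Fin.sum_univ_three]
  simp [mul_comm]

lemma inner_F0 (x v : EuclideanSpace ℝ (Fin 3)) :
    ⟪F₀ 0 x, v⟫ = (8 * (x 2) ^ 2 / (2 - x 0) ^ 2 - x 1) * v 0 + x 0 * v 1
      + 16 * x 2 / (2 - x 0) * v 2 := by
  rw [inner3]
  simp [F₀]

lemma inner_F1 (x v : EuclideanSpace ℝ (Fin 3)) : ⟪F₀ 1 x, v⟫ = v 2 := by
  rw [inner3]
  simp [F₀]

lemma closed_K₀ : IsClosed K₀ := by
  have h0 : Continuous fun x : EuclideanSpace ℝ (Fin 3) => x 0 := by fun_prop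
  have h1 : Continuous fun x : EuclideanSpace ℝ (Fin 3) => x 1 := by fun_prop
  have h2 : Continuous fun x : EuclideanSpace ℝ (Fin 3) => (x 2) ^ 2 := by fun_prop
  exact (isClosed_le continuous_const h0).inter ((isClosed_le h0 continuous_const).inter
    ((isClosed_le h2 h1).inter (isClosed_le h1 continuous_const)))

lemma bounded_K₀ : Bornology.IsBounded K₀ := by
  refine (Metric.isBounded_iff_subset_closedBall (0 : EuclideanSpace ℝ (Fin 3))).2 ⟨2, ?_⟩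
  rintro x ⟨h0, h0', h2, h1⟩
  rw [mem_closedBall_zero_iff, EuclideanSpace.norm_eq, Fin.sum_univ_three]
  refine Real.sqrt_le_iff.2 ⟨by norm_num, ?_⟩
  simp only [Real.norm_eq_abs, sq_abs]
  nlinarith [sq_nonneg (x 2), mul_nonneg h0 h0]

lemma convex_K₀ : Convex ℝ K₀ := by
  rintro x ⟨h0, h0', h2, h1⟩ y ⟨k0, k0', k2, k1⟩ a b ha hb hab
  refine ⟨?_, ?_, ?_, ?_⟩ <;>
    simp only [PiLp.add_apply, PiLp.smul_apply, smul_eq_mul]
  · positivity
  · nlinarith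
  · have e : (a * x 2 + b * y 2) ^ 2 = a * (x 2) ^ 2 + b * (y 2) ^ 2 - a * b * (x 2 - y 2) ^ 2 := by
      have : b = 1 - a := by linarith
      subst this; ring
    have : 0 ≤ a * b * (x 2 - y 2) ^ 2 := by positivity
    nlinarith
  · nlinarith

lemma cont_F₀ (l : Fin 2) : ContinuousOn (F₀ l) K₀ := by
  fin_cases l
  · have hne : ∀ x ∈ K₀, (2 - x 0) ≠ 0 := fun x hx => by
      have := hx.2.1
      intro h; linarith
    have hne2 : ∀ x ∈ K₀, (2 - x 0) ^ 2 ≠ 0 := fun x hx => pow_ne_zero _ (hne x hx)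
    simp only [F₀, Fin.zero_eta, Matrix.cons_val_zero]
    refine (PiLp.continuous_toLp 2 _).comp_continuousOn ?_
    refine continuousOn_pi.2 fun i => ?_
    fin_cases i
    · simp only [Fin.zero_eta, Matrix.cons_val_zero]
      exact ((ContinuousOn.div (by fun_prop) (by fun_prop) hne2)).sub (by fun_prop)
    · simp only [Fin.mk_one, Matrix.cons_val_one, Matrix.cons_val_zero]
      fun_prop
    · simp only [Fin.reduceFinMk, Matrix.cons_val]
      exact ContinuousOn.div (by fun_prop) (by fun_prop) hne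
  · simp only [F₀, Fin.mk_one, Matrix.cons_val_one, Matrix.cons_val_zero]
    exact continuousOn_const

lemma mono_F₀ (l : Fin 2) : MonotoneOnSet (F₀ l) K₀ := by
  fin_cases l
  · rintro x ⟨h0, h0', h2, h1⟩ y ⟨k0, k0', k2, k1⟩
    show 0 ≤ ⟪F₀ 0 y - F₀ 0 x, y - x⟫
    rw [inner_sub_left, inner_F0, inner_F0]
    simp only [PiLp.sub_apply]
    have hc : 0 < 2 - x 0 := by linarith
    have hd : 0 < 2 - y 0 := by linarith
    have key : (8 * (y 2) ^ 2 / (2 - y 0) ^ 2 - y 1) * (y 0 - x 0) + y 0 * (y 1 - x 1)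
        + 16 * y 2 / (2 - y 0) * (y 2 - x 2)
        - ((8 * (x 2) ^ 2 / (2 - x 0) ^ 2 - x 1) * (y 0 - x 0) + x 0 * (y 1 - x 1)
        + 16 * x 2 / (2 - x 0) * (y 2 - x 2))
        = 8 * ((y 2 / (2 - y 0) - x 2 / (2 - x 0)) ^ 2) * ((2 - y 0) + (2 - x 0)) := by
      field_simp
      ring
    rw [key]
    positivity
  · rintro x - y -
    show 0 ≤ ⟪F₀ 1 y - F₀ 1 x, y - x⟫
    rw [inner_sub_left, inner_F1, inner_F1]
    simp

lemma sol_cases {x : EuclideanSpace ℝ (Fin 3)} (hx : x ∈ Sol F₀ K₀) :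
    (0 < x 0 ∧ 0 ≤ x 2) ∨ (x 0 = 0 ∧ x 2 < 0) := by
  obtain ⟨⟨h0, h0', h2, h1⟩, hS⟩ := hx
  have hno : ∀ y ∈ K₀, 0 ≤ ⟪F₀ 0 x, x - y⟫ → 0 ≤ ⟪F₀ 1 x, x - y⟫ →
      (⟪F₀ 0 x, x - y⟫ ≠ 0 ∨ ⟪F₀ 1 x, x - y⟫ ≠ 0) → False := by
    intro y hy a b c
    refine hS y hy ⟨?_, ?_⟩
    · intro l; fin_cases l
      · exact a
      · exact b
    · rcases c with c | c
      · exact ⟨0, c⟩
      · exact ⟨1, c⟩
  rcases lt_or_ge (x 2) 0 with hn | hp
  · -- `x 2 < 0`; show `x 0 = 0`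
    right
    refine ⟨?_, hn⟩
    by_contra hne
    have hs : 0 < x 0 := lt_of_le_of_ne h0 (Ne.symm hne)
    rcases eq_or_lt_of_le h2 with he | hlt
    · -- decrease `s`
      have hy : (!₂[0, x 1, x 2] : EuclideanSpace ℝ (Fin 3)) ∈ K₀ := by
        refine ⟨?_, ?_, ?_, ?_⟩ <;> simp <;> linarith
      have hc : 0 < 2 - x 0 := by linarith
      have hpos : 0 < (8 * (x 2) ^ 2 / (2 - x 0) ^ 2 - x 1) := by
        rw [← he]
        have : 8 * x 2 ^ 2 / (2 - x 0) ^ 2 - x 2 ^ 2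
            = x 2 ^ 2 * (8 - (2 - x 0) ^ 2) / (2 - x 0) ^ 2 := by
          field_simp
        rw [this]
        have h3 : 0 < x 2 ^ 2 := by nlinarith
        have h4 : 0 < 8 - (2 - x 0) ^ 2 := by nlinarith
        positivity
      refine hno _ hy ?_ ?_ (Or.inl ?_)
      · rw [inner_F0]; simp; positivity
      · rw [inner_F1]; simp
      · rw [inner_F0]; simp
        exact ⟨hpos.ne', hs.ne'⟩
    · have hy : (!₂[x 0, (x 2) ^ 2, x 2] : EuclideanSpace ℝ (Fin 3)) ∈ K₀ := by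
        refine ⟨by simpa using h0, by simpa using h0', le_of_eq (by simp), ?_⟩
        show (x 2) ^ 2 ≤ 1
        linarith
      refine hno _ hy ?_ ?_ (Or.inl ?_)
      · rw [inner_F0]; simp; exact mul_nonneg hs.le (by linarith)
      · rw [inner_F1]; simp
      · rw [inner_F0]; simp
        exact ⟨hs.ne', by intro h; linarith⟩
  · left
    refine ⟨?_, hp⟩
    by_contra hs
    have hs0 : x 0 = 0 := le_antisymm (not_lt.1 hs) h0
    rcases eq_or_lt_of_le hp with he | hlt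
    · -- `x 2 = 0`
      rcases eq_or_lt_of_le (show 0 ≤ x 1 by nlinarith [sq_nonneg (x 2)]) with h10 | h10
      · have hy : (!₂[0, 1, -1] : EuclideanSpace ℝ (Fin 3)) ∈ K₀ := by
          refine ⟨?_, ?_, ?_, ?_⟩ <;> simp
        refine hno _ hy ?_ ?_ (Or.inr ?_)
        · rw [inner_F0]; simp [hs0, ← he, ← h10]
        · rw [inner_F1]; simp [← he]
        · rw [inner_F1]; simp [← he]
      · have hy : (!₂[0, x 1, -(x 1)] : EuclideanSpace ℝ (Fin 3)) ∈ K₀ := by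
          refine ⟨?_, ?_, ?_, ?_⟩ <;> simp <;> nlinarith
        refine hno _ hy ?_ ?_ (Or.inr ?_)
        · rw [inner_F0]; simp [hs0, ← he]
        · rw [inner_F1]; simp [← he]; exact h10.le
        · rw [inner_F1]; simp [← he]; exact h10.ne'
    · have hy : (!₂[0, x 1, 0] : EuclideanSpace ℝ (Fin 3)) ∈ K₀ := by
        refine ⟨?_, ?_, ?_, ?_⟩ <;> simp <;> nlinarith [sq_nonneg (x 2)]
      refine hno _ hy ?_ ?_ (Or.inr ?_)
      · rw [inner_F0]; simp [hs0]; positivity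
      · rw [inner_F1]; simp; exact hp
      · rw [inner_F1]; simp; exact hlt.ne'

lemma mem_one : (!₂[1, 0, 0] : EuclideanSpace ℝ (Fin 3)) ∈ Sol F₀ K₀ := by
  refine ⟨⟨by simp, by simp, by simp, by simp⟩, ?_⟩
  rintro y ⟨h0, h0', h2, h1⟩ ⟨hall, l, hl⟩
  have a := hall 0
  have b := hall 1
  rw [inner_F0] at a
  rw [inner_F1] at b
  simp at a b
  have hy1 : y 1 = 0 := by nlinarith [sq_nonneg (y 2)]
  have hy2 : y 2 = 0 := by
    have : (y 2) ^ 2 ≤ 0 := by linarith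
    exact pow_eq_zero_iff (two_ne_zero) |>.1 (le_antisymm this (sq_nonneg _))
  fin_cases l
  · apply hl
    show ⟪F₀ 0 _, _⟫ = 0
    rw [inner_F0]; simp [hy1]
  · apply hl
    show ⟪F₀ 1 _, _⟫ = 0
    rw [inner_F1]; simp [hy2]

lemma mem_two : (!₂[0, 1, -1] : EuclideanSpace ℝ (Fin 3)) ∈ Sol F₀ K₀ := by
  refine ⟨⟨by simp, by simp, by simp, by simp⟩, ?_⟩
  rintro y ⟨h0, h0', h2, h1⟩ ⟨hall, l, hl⟩
  have a := hall 0
  have b := hall 1
  rw [inner_F0] at a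
  rw [inner_F1] at b
  simp at a b
  norm_num at a b
  have hy2 : y 2 = -1 := by nlinarith
  have hy0 : y 0 = 0 := by nlinarith
  fin_cases l
  · apply hl
    show ⟪F₀ 0 _, _⟫ = 0
    rw [inner_F0]; simp [hy2, hy0]
  · apply hl
    show ⟪F₀ 1 _, _⟫ = 0
    rw [inner_F1]; simp [hy2]

/-- There is a monotone vector variational inequality (two continuous monotone maps on a compact
convex subset of `ℝ³`) whose Pareto solution set is bounded and not connected. -/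
theorem result : ∃ (n m : ℕ) (K : Set (EuclideanSpace ℝ (Fin n)))
    (F : Fin m → EuclideanSpace ℝ (Fin n) → EuclideanSpace ℝ (Fin n)),
    1 ≤ n ∧ 1 ≤ m ∧ K.Nonempty ∧ IsClosed K ∧ Convex ℝ K ∧
    (∀ l, ContinuousOn (F l) K) ∧ (∀ l, MonotoneOnSet (F l) K) ∧
    (Sol F K).Nonempty ∧ ¬ IsConnected (Sol F K) ∧ Bornology.IsBounded (Sol F K) ∧
    IsCompact K := by
  refine ⟨3, 2, K₀, F₀, by norm_num, by norm_num, ⟨_, mem_one.1⟩, closed_K₀, convex_K₀,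
    cont_F₀, mono_F₀, ⟨_, mem_one⟩, ?_, bounded_K₀.subset fun x hx => hx.1,
    Metric.isCompact_of_isClosed_isBounded closed_K₀ bounded_K₀⟩
  rintro ⟨-, hpre⟩
  have h0 : Continuous fun x : EuclideanSpace ℝ (Fin 3) => x 0 := by fun_prop
  have h2 : Continuous fun x : EuclideanSpace ℝ (Fin 3) => x 2 := by fun_prop
  have hU : IsOpen {x : EuclideanSpace ℝ (Fin 3) | 0 < x 0} := isOpen_lt continuous_const h0
  have hV : IsOpen {x : EuclideanSpace ℝ (Fin 3) | x 2 < 0} := isOpen_lt h2 continuous_const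
  obtain ⟨x, hx, hx1, hx2⟩ := hpre _ _ hU hV
    (fun x hx => by
      rcases sol_cases hx with h | h
      · exact Or.inl h.1
      · exact Or.inr h.2)
    ⟨_, mem_one, by simp⟩ ⟨_, mem_two, by simp⟩
  change 0 < x 0 at hx1
  change x 2 < 0 at hx2
  rcases sol_cases hx with h | h
  · linarith [h.2]
  · linarith [h.1]

end Pool.Agent.Results.MP_177738_an.BoundedDisconnected
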